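import Mathlib

set_option autoImplicit false

namespace Pool.Agent.Results.MP_23516e_gt.Counter

open Set Filter Topology Ordinal OnePoint

lemma cnt (o : Ordinal.{0}) : (Iio o).Countable ↔ o < ω₁ := by
  rw [← Cardinal.le_aleph0_iff_set_countable, Cardinal.mk_Iio_ordinal, Cardinal.lift_le_aleph0,
    ← Cardinal.ord_aleph, Cardinal.lt_ord, ← Order.lt_succ_iff, Cardinal.succ_aleph0]

abbrev P : Type 1 := Icc (0 : Ordinal.{0}) ω₁

abbrev XX : Type 1 := Fin 3 × OnePoint (ℕ × P)

lemma w1pos : (0 : Ordinal.{0}) < ω₁ := omega0_pos.trans omega0_lt_omega_one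

lemma blk_le (q : Ordinal.{0}) (x : P) : ω₁ * q + (1 + x.1) ≤ ω₁ * (q + 1) := by
  rw [mul_add, mul_one]
  refine add_le_add_right ?_ _
  calc 1 + x.1 ≤ 1 + ω₁ := add_le_add_right x.2.2 _
    _ = ω₁ := one_add_of_omega0_le omega0_lt_omega_one.le

lemma blk_lt (q : Ordinal.{0}) (x : P) : ω₁ * q < ω₁ * q + (1 + x.1) :=
  lt_add_of_pos_right _ (zero_lt_one.trans_le le_self_add)

lemma blk_lt' {q q' : Ordinal.{0}} (h : q < q') (x x' : P) :
    ω₁ * q + (1 + x.1) < ω₁ * q' + (1 + x'.1) :=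
  (blk_le q x).trans_lt ((mul_le_mul_right (Order.add_one_le_of_lt h) _).trans_lt (blk_lt _ _))

lemma blk_inj {q q' : Ordinal.{0}} {x x' : P} (h : ω₁ * q + (1 + x.1) = ω₁ * q' + (1 + x'.1)) :
    q = q' ∧ x = x' := by
  rcases lt_trichotomy q q' with h1 | rfl | h1
  · exact absurd h (blk_lt' h1 _ _).ne
  · exact ⟨rfl, Subtype.ext (add_left_cancel (add_left_cancel h))⟩
  · exact absurd h (blk_lt' h1 _ _).ne'

lemma blk_ne {q l : Ordinal.{0}} (hl : Order.IsSuccLimit l) (x : P) :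
    ω₁ * q + (1 + x.1) ≠ ω₁ * l := by
  rcases lt_or_ge q l with h | h
  · exact ((blk_le q x).trans_lt (mul_lt_mul_of_pos_left (hl.add_one_lt h) w1pos)).ne
  · exact ((mul_le_mul_right h _).trans_lt (blk_lt q x)).ne'

noncomputable def F (b : Ordinal.{0}) (i : ℕ) : OnePoint (ℕ × P) → Ordinal.{0} :=
  OnePoint.rec (ω₁ * (b + ω)) fun p => ω₁ * (b + (3 * p.1 + i : ℕ)) + (1 + p.2.1)

lemma F_le (b : Ordinal.{0}) (i : ℕ) (z : OnePoint (ℕ × P)) : F b i z ≤ ω₁ * (b + ω) := by
  induction z with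
  | infty => exact le_rfl
  | coe p =>
    refine (blk_le _ _).trans (mul_le_mul_right ?_ _)
    exact Order.add_one_le_of_lt (add_lt_add_right (natCast_lt_omega0 _) _)

lemma F_cont (b : Ordinal.{0}) (i : ℕ) : Continuous (F b i) := by
  rw [OnePoint.continuous_iff]
  constructor
  · rw [tendsto_order]
    refine ⟨fun a ha => ?_, fun a ha => Eventually.of_forall fun p => (F_le _ _ _).trans_lt ha⟩
    have ha' : a < ω₁ * (b + ω) := ha
    obtain ⟨c, hc, hac⟩ := (lt_mul_iff_of_isSuccLimit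
      (isSuccLimit_add b isSuccLimit_omega0)).1 ha'
    obtain ⟨d, hd, hcd⟩ := (lt_add_iff_of_isSuccLimit isSuccLimit_omega0).1 hc
    obtain ⟨m, rfl⟩ := lt_omega0.1 hd
    have hK : IsCompact ((Iic m) ×ˢ (univ : Set P)) :=
      (finite_Iic m).isCompact.prod isCompact_univ
    filter_upwards [hasBasis_coclosedCompact.mem_of_mem (i := (Iic m) ×ˢ (univ : Set P)) ⟨hK.isClosed, hK⟩] with p hp
    have hp' : m ≤ 3 * p.1 + i := by
      simp only [mem_compl_iff, mem_prod, mem_Iic, mem_univ, and_true, not_le] at hp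
      omega
    refine hac.trans_le ((mul_le_mul_right ?_ _).trans (blk_lt _ _).le)
    exact hcd.le.trans (add_le_add_right (Nat.cast_le.2 hp') _)
  · refine continuous_prod_of_discrete_left.2 fun n => ?_
    exact (isNormal_add_right (ω₁ * (b + (3 * n + i : ℕ)))).continuous.comp
      ((isNormal_add_right 1).continuous.comp continuous_subtype_val)

lemma cleave (A : Set XX) : ∃ f : XX → Iio (ω₁ * ω * 2 + 1 : Ordinal.{0}),
    Continuous f ∧ f ⁻¹' (f '' A) = A := by
  have h0 : ∃ j : Fin 3, ∀ i i' : Fin 3, i ≠ j → i' ≠ j → (i, ∞) ∈ A → (i', ∞) ∈ A := by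
    by_cases h0 : ((0 : Fin 3), ∞) ∈ A <;> by_cases h1 : ((1 : Fin 3), ∞) ∈ A <;>
      by_cases h2 : ((2 : Fin 3), ∞) ∈ A <;> simp [Fin.exists_fin_succ, Fin.forall_fin_succ, *]
  obtain ⟨j, hj⟩ := h0
  let b : Fin 3 → Ordinal.{0} := fun i => if i = j then ω else 0
  have hb : ∀ i, b i ≤ ω := fun i => by simp only [b]; split_ifs <;> simp
  refine ⟨fun u => ⟨F (b u.1) u.1 u.2, ?_⟩, ?_, ?_⟩
  · refine Order.lt_add_one_iff.2 ((F_le _ _ _).trans ?_)
    rw [mul_assoc, ← one_add_one_eq_two, mul_add ω, mul_one]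
    exact mul_le_mul_right (add_le_add_left (hb _) _) _
  · exact (continuous_prod_of_discrete_left.2 fun i => F_cont (b i) i).subtype_mk _
  · refine Subset.antisymm ?_ (subset_preimage_image _ _)
    rintro ⟨i', z'⟩ ⟨⟨i, z⟩, hz, h⟩
    have h1 : F (b i) i z = F (b i') i' z' := congrArg Subtype.val h
    induction z with
    | infty =>
      induction z' with
      | infty =>
        have h2 : b i + ω = b i' + ω := (isNormal_mul_right w1pos).strictMono.injective h1
        by_cases hi : i = j <;> by_cases hi' : i' = j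
        · rwa [hi', ← hi]
        · simp only [b, hi, hi', if_true, if_false, zero_add] at h2
          exact absurd h2 (lt_add_of_pos_right _ omega0_pos).ne'
        · simp only [b, hi, hi', if_true, if_false, zero_add] at h2
          exact absurd h2 (lt_add_of_pos_right _ omega0_pos).ne
        · exact hj i i' hi hi' hz
      | coe p => exact absurd h1.symm (blk_ne (isSuccLimit_add _ isSuccLimit_omega0) _)
    | coe p =>
      induction z' with
      | infty => exact absurd h1 (blk_ne (isSuccLimit_add _ isSuccLimit_omega0) _)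
      | coe p' =>
        obtain ⟨h2, h3⟩ := blk_inj h1
        have h4 : 3 * p.1 + i = 3 * p'.1 + i' := by
          by_cases hi : i = j <;> by_cases hi' : i' = j
          · rw [show b i = b i' by rw [hi, hi']] at h2
            exact Nat.cast_injective (add_left_cancel h2)
          · simp only [b, if_pos hi, if_neg hi', zero_add] at h2
            exact absurd h2 ((natCast_lt_omega0 _).trans_le le_self_add).ne'
          · simp only [b, if_pos hi', if_neg hi, zero_add] at h2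
            exact absurd h2 ((natCast_lt_omega0 _).trans_le le_self_add).ne
          · simp only [b, if_neg hi', if_neg hi, zero_add] at h2
            exact Nat.cast_injective h2
        have h5 : i = i' := Fin.ext (by omega)
        have h6 : p = p' := Prod.ext (by omega) h3
        rwa [← h5, ← h6]

noncomputable def tp : P := ⟨ω₁, w1pos.le, le_rfl⟩

lemma top_mul {g : P → Ordinal.{0}} (hg : Continuous g) (hi : Function.Injective g) :
    ∃ q, g tp = ω₁ * q := by
  by_contra h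
  push Not at h
  have h1 := div_add_mod (g tp) ω₁
  set q := g tp / ω₁
  set r := g tp % ω₁
  have hr : r < ω₁ := mod_lt _ w1pos.ne'
  have h2 : ω₁ * q < g tp := lt_of_le_of_ne (h1 ▸ le_self_add) (h q).symm
  have h3 : g ⁻¹' Ioo (ω₁ * q) (g tp + 1) ∈ 𝓝 tp :=
    hg.continuousAt.preimage_mem_nhds (Ioo_mem_nhds h2 (Order.lt_add_one_iff.2 le_rfl))
  have hl : Order.IsSuccLimit (ω₁ : Ordinal.{0}) := Cardinal.isSuccLimit_omega 1
  have h4 : (Ioo (ω₁ * q) (g tp + 1)).Countable := by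
    refine (((cnt _).2 (hl.add_one_lt hr)).image (ω₁ * q + ·)).mono fun y hy => ?_
    obtain ⟨s, rfl⟩ := exists_add_of_le hy.1.le
    refine ⟨s, ?_, rfl⟩
    have := hy.2
    rw [← h1, add_assoc] at this
    exact lt_of_add_lt_add_left this
  have h5 := h4.preimage_of_injOn hi.injOn
  rw [mem_nhds_subtype] at h3
  obtain ⟨t, ht, hts⟩ := h3
  obtain ⟨a, ha, hat⟩ := exists_Ioc_subset_of_mem_nhds ht ⟨0, w1pos⟩
  have h6 : (Iio (ω₁ : Ordinal.{0})).Countable := by
    refine (((cnt _).2 (hl.add_one_lt ha)).union (h5.image Subtype.val)).mono fun y hy => ?_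
    rcases le_or_gt y a with h7 | h7
    · exact Or.inl (Order.lt_add_one_iff.2 h7)
    · exact Or.inr ⟨⟨y, zero_le, le_of_lt hy⟩, hts (hat ⟨h7, le_of_lt hy⟩), rfl⟩
  exact lt_irrefl _ ((cnt _).1 h6)

lemma fin_mul (b : Ordinal.{0}) (m : ℕ) :
    {y : Ordinal.{0} | ω₁ * b ≤ y ∧ y < ω₁ * (b + m) ∧ ∃ q, y = ω₁ * q}.Finite := by
  refine ((finite_Iio m).image fun k : ℕ => ω₁ * (b + k)).subset ?_
  rintro _ ⟨h1, h2, q, rfl⟩
  have hs := (isNormal_mul_right w1pos).strictMono
  obtain ⟨s, rfl⟩ := exists_add_of_le (hs.le_iff_le.1 h1)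
  have h3 : s < m := lt_of_add_lt_add_left (hs.lt_iff_lt.1 h2)
  obtain ⟨k, rfl⟩ := lt_omega0.1 (h3.trans (natCast_lt_omega0 m))
  exact ⟨k, Nat.cast_lt.1 h3, rfl⟩

lemma lim_val {g : OnePoint (ℕ × P) → Ordinal.{0}} (hg : Continuous g)
    (hi : Function.Injective g) (hb : g ∞ ≤ ω₁ * (ω + ω)) :
    g ∞ = ω₁ * ω ∨ g ∞ = ω₁ * (ω + ω) := by
  have h1 : ∀ n : ℕ, ∃ q, g ((n, tp) : ℕ × P) = ω₁ * q := fun n =>
    top_mul (g := fun x => g ((n, x) : ℕ × P))
      (hg.comp (continuous_coe.comp (Continuous.prodMk_right n)))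
      fun x y h => (Prod.ext_iff.1 (coe_injective (hi h))).2
  have h2 : Tendsto (fun n : ℕ => g ((n, tp) : ℕ × P)) atTop (𝓝 (g ∞)) := by
    refine (hg.tendsto _).comp (tendsto_coe_infty.comp ?_)
    rw [hasBasis_coclosedCompact.tendsto_right_iff]
    rintro s ⟨-, hs⟩
    obtain ⟨m, hm⟩ := (hs.image continuous_fst).finite_of_discrete.bddAbove
    filter_upwards [eventually_gt_atTop m] with n hn h
    exact absurd (hm ⟨_, h, rfl⟩) (not_le.2 hn)
  have key : ∀ (b : Ordinal.{0}) (U : Set Ordinal.{0}), U ∈ 𝓝 (g ∞) → (∀ y ∈ U, ω₁ * b ≤ y) →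
      ¬ g ∞ < ω₁ * (b + ω) := by
    intro b U hU hUb ha
    obtain ⟨c, hc, hac⟩ := (lt_mul_iff_of_isSuccLimit
      (isSuccLimit_add b isSuccLimit_omega0)).1 ha
    obtain ⟨d, hd, hcd⟩ := (lt_add_iff_of_isSuccLimit isSuccLimit_omega0).1 hc
    obtain ⟨m, rfl⟩ := lt_omega0.1 hd
    have h3 := (h2.eventually hU).and
      (h2.eventually (Iio_mem_nhds (hac.trans_le (mul_le_mul_right hcd.le _))))
    have h4 := (fin_mul b m).preimage (f := fun n : ℕ => g ((n, tp) : ℕ × P))
      fun x _ y _ h => (Prod.ext_iff.1 (coe_injective (hi h))).1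
    obtain ⟨k, hk⟩ := h4.bddAbove
    obtain ⟨n, ⟨h5, h6⟩, h7⟩ := (h3.and (eventually_gt_atTop k)).exists
    exact absurd (hk ⟨hUb _ h5, h6, h1 n⟩) (not_le.2 h7)
  rcases lt_trichotomy (g ∞) (ω₁ * ω) with h | h | h
  · exact absurd (by simpa using h) (key 0 univ univ_mem (by simp))
  · exact Or.inl h
  · exact Or.inr (le_antisymm hb (not_lt.1 (key ω _ (Ioi_mem_nhds h) fun y hy => le_of_lt hy)))

theorem result : ∃ lam : Ordinal.{0}, ω₁ < lam ∧
    ∃ (X : Type 1) (_ : TopologicalSpace X), CompactSpace X ∧ T2Space X ∧ Infinite X ∧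
      (∀ A : Set X, ∃ f : X → Iio lam, Continuous f ∧ f ⁻¹' (f '' A) = A) ∧
      ¬ ∃ e : X → Iio lam, IsEmbedding e := by
  have hl : (ω₁ * ω * 2 : Ordinal.{0}) = ω₁ * (ω + ω) := by
    rw [mul_assoc, ← one_add_one_eq_two, mul_add ω, mul_one]
  refine ⟨ω₁ * ω * 2 + 1, ?_, XX, inferInstance, inferInstance, inferInstance, ?_, cleave, ?_⟩
  · rw [hl, Order.lt_add_one_iff]
    exact le_mul_left _ (omega0_pos.trans_le le_self_add)
  · exact Infinite.of_injective (fun n : ℕ => ((0, ((n, tp) : ℕ × P)) : XX))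
      fun x y h => (Prod.ext_iff.1 (coe_injective (Prod.ext_iff.1 h).2)).1
  · rintro ⟨e, he⟩
    have h1 : ∀ i : Fin 3, (e (i, ∞)).1 = ω₁ * ω ∨ (e (i, ∞)).1 = ω₁ * (ω + ω) := fun i =>
      lim_val (g := fun z => (e (i, z)).1)
        (continuous_subtype_val.comp (he.continuous.comp (Continuous.prodMk_right i)))
        (fun x y h => (Prod.ext_iff.1 (he.injective (Subtype.ext h))).2)
        (by rw [← hl, ← Order.lt_add_one_iff]; exact (e (i, ∞)).2)
    have h2 : ∀ i j : Fin 3, (e (i, ∞)).1 = (e (j, ∞)).1 → i = j := fun i j h =>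
      (Prod.ext_iff.1 (he.injective (Subtype.ext h))).1
    rcases h1 0 with a | a <;> rcases h1 1 with b | b <;> rcases h1 2 with c | c <;>
      first
      | exact absurd (h2 0 1 (a.trans b.symm)) (by decide)
      | exact absurd (h2 0 2 (a.trans c.symm)) (by decide)
      | exact absurd (h2 1 2 (b.trans c.symm)) (by decide)

end Pool.Agent.Results.MP_23516e_gt.Counter
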